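import Mathlib

set_option autoImplicit false

namespace Pool.Agent.Results.MP_b8aaf5_co.Neg

/-- discard the empty piles. -/
def clean (s : Multiset ℕ) : Multiset ℕ := s.filter (fun a => 0 < a)

/-- A move from `s` to `t`: a unimove (one token from one pile `a`) or an allmove (one token from
every pile of a nonempty position); empty piles are discarded. -/
def Move (s t : Multiset ℕ) : Prop :=
  (∃ a ∈ s, t = clean ((a - 1) ::ₘ s.erase a)) ∨ (s ≠ 0 ∧ t = clean (s.map (fun a => a - 1)))

/-- Normal play. `Wins true s`: the player to move has a winning strategy from `s` (N-position);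
`Wins false s`: the player not to move has one (P-position). -/
inductive Wins : Bool → Multiset ℕ → Prop
  | move (s t : Multiset ℕ) : Move s t → Wins false t → Wins true s
  | wait (s : Multiset ℕ) : (∀ t, Move s t → Wins true t) → Wins false s

/-- membership `j ∈ S_k`. -/
def InS (k j : ℕ) : Prop :=
  j ≤ k ∧ ((k % 2 = 1 ∧ j % 2 = 0) ∨
    (k % 2 = 0 ∧ ((j % 2 = 0 ∧ 2 * j < k) ∨ (j % 2 = 1 ∧ k < 2 * j))))

theorem excl (b : Bool) (s : Multiset ℕ) (h : Wins b s) : ¬ Wins (!b) s := by
  induction h with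
  | move s t hm _ ih =>
    intro h2
    cases h2 with
    | wait _ h4 => exact ih (h4 t hm)
  | wait s _ ih =>
    intro h2
    cases h2 with
    | move _ t hm h5 => exact ih t hm h5

abbrev T := ℕ × ℕ × ℕ × ℕ × ℕ × ℕ

def pos (a b c d e f : ℕ) : Multiset ℕ :=
  Multiset.replicate a 1 + Multiset.replicate b 2 + Multiset.replicate c 3 +
    Multiset.replicate d 4 + Multiset.replicate e 5 + Multiset.replicate f 6

def posT (x : T) : Multiset ℕ := pos x.1 x.2.1 x.2.2.1 x.2.2.2.1 x.2.2.2.2.1 x.2.2.2.2.2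

def mv6 (a b c d e f : ℕ) : List T :=
  (if 0 < a then [(a - 1, b, c, d, e, f)] else []) ++
  ((if 0 < b then [(a + 1, b - 1, c, d, e, f)] else []) ++
  ((if 0 < c then [(a, b + 1, c - 1, d, e, f)] else []) ++
  ((if 0 < d then [(a, b, c + 1, d - 1, e, f)] else []) ++
  ((if 0 < e then [(a, b, c, d + 1, e - 1, f)] else []) ++
  ((if 0 < f then [(a, b, c, d, e + 1, f - 1)] else []) ++
  (if 0 < a + b + c + d + e + f then [(b, c, d, e, f, 0)] else []))))))

def mv (x : T) : List T := mv6 x.1 x.2.1 x.2.2.1 x.2.2.2.1 x.2.2.2.2.1 x.2.2.2.2.2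

theorem cnt (a b c d e f n : ℕ) : (pos a b c d e f).count n =
    if n = 1 then a else if n = 2 then b else if n = 3 then c else if n = 4 then d else
      if n = 5 then e else if n = 6 then f else 0 := by
  unfold pos
  simp only [Multiset.count_add, Multiset.count_replicate]
  rcases n with _ | _ | _ | _ | _ | _ | _ | n <;> simp

theorem cntE (s : Multiset ℕ) (a n : ℕ) :
    (clean ((a - 1) ::ₘ s.erase a)).count n =
      if 0 < n then (s.count n - (if n = a then 1 else 0)) + (if n = a - 1 then 1 else 0) else 0 := by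
  unfold clean
  rw [Multiset.count_filter, Multiset.count_cons]
  by_cases h : n = a
  · subst h
    simp
  · rw [Multiset.count_erase_of_ne h]
    simp [h]

theorem u1 (a b c d e f : ℕ) :
    clean ((1 - 1) ::ₘ (pos a b c d e f).erase 1) = pos (a - 1) b c d e f := by
  refine Multiset.ext.2 (fun n => ?_)
  rw [cntE, cnt, cnt]
  rcases n with _ | _ | _ | _ | _ | _ | _ | n <;> simp

theorem u2 (a b c d e f : ℕ) :
    clean ((2 - 1) ::ₘ (pos a b c d e f).erase 2) = pos (a + 1) (b - 1) c d e f := by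
  refine Multiset.ext.2 (fun n => ?_)
  rw [cntE, cnt, cnt]
  rcases n with _ | _ | _ | _ | _ | _ | _ | n <;> simp

theorem u3 (a b c d e f : ℕ) :
    clean ((3 - 1) ::ₘ (pos a b c d e f).erase 3) = pos a (b + 1) (c - 1) d e f := by
  refine Multiset.ext.2 (fun n => ?_)
  rw [cntE, cnt, cnt]
  rcases n with _ | _ | _ | _ | _ | _ | _ | n <;> simp

theorem u4 (a b c d e f : ℕ) :
    clean ((4 - 1) ::ₘ (pos a b c d e f).erase 4) = pos a b (c + 1) (d - 1) e f := by
  refine Multiset.ext.2 (fun n => ?_)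
  rw [cntE, cnt, cnt]
  rcases n with _ | _ | _ | _ | _ | _ | _ | n <;> simp

theorem u5 (a b c d e f : ℕ) :
    clean ((5 - 1) ::ₘ (pos a b c d e f).erase 5) = pos a b c (d + 1) (e - 1) f := by
  refine Multiset.ext.2 (fun n => ?_)
  rw [cntE, cnt, cnt]
  rcases n with _ | _ | _ | _ | _ | _ | _ | n <;> simp

theorem u6 (a b c d e f : ℕ) :
    clean ((6 - 1) ::ₘ (pos a b c d e f).erase 6) = pos a b c d (e + 1) (f - 1) := by
  refine Multiset.ext.2 (fun n => ?_)
  rw [cntE, cnt, cnt]
  rcases n with _ | _ | _ | _ | _ | _ | _ | n <;> simp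

theorem ua (a b c d e f : ℕ) :
    clean ((pos a b c d e f).map (fun a => a - 1)) = pos b c d e f 0 := by
  refine Multiset.ext.2 (fun n => ?_)
  rw [cnt]
  unfold clean pos
  simp only [Multiset.map_add, Multiset.map_replicate, Multiset.count_filter, Multiset.count_add,
    Multiset.count_replicate]
  rcases n with _ | _ | _ | _ | _ | _ | _ | n <;> simp

theorem memp (a b c d e f n : ℕ) : n ∈ pos a b c d e f ↔
    (n = 1 ∧ 0 < a) ∨ (n = 2 ∧ 0 < b) ∨ (n = 3 ∧ 0 < c) ∨ (n = 4 ∧ 0 < d) ∨ (n = 5 ∧ 0 < e) ∨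
      (n = 6 ∧ 0 < f) := by
  rw [← Multiset.one_le_count_iff_mem, cnt]
  split_ifs <;> omega

theorem nz (a b c d e f : ℕ) : pos a b c d e f ≠ 0 ↔ 0 < a + b + c + d + e + f := by
  rw [← Multiset.card_pos]
  unfold pos
  simp only [Multiset.card_add, Multiset.card_replicate]

theorem mem_mv6 (a b c d e f : ℕ) (y : T) : y ∈ mv6 a b c d e f ↔
    (0 < a ∧ y = (a - 1, b, c, d, e, f)) ∨ (0 < b ∧ y = (a + 1, b - 1, c, d, e, f)) ∨
    (0 < c ∧ y = (a, b + 1, c - 1, d, e, f)) ∨ (0 < d ∧ y = (a, b, c + 1, d - 1, e, f)) ∨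
    (0 < e ∧ y = (a, b, c, d + 1, e - 1, f)) ∨ (0 < f ∧ y = (a, b, c, d, e + 1, f - 1)) ∨
    (0 < a + b + c + d + e + f ∧ y = (b, c, d, e, f, 0)) := by
  unfold mv6
  simp only [List.mem_append, List.mem_ite_nil_right, List.mem_singleton]

theorem move_iff (x : T) (t : Multiset ℕ) : Move (posT x) t ↔ ∃ y ∈ mv x, t = posT y := by
  obtain ⟨a, b, c, d, e, f⟩ := x
  show Move (pos a b c d e f) t ↔ ∃ y ∈ mv6 a b c d e f, t = posT y
  constructor
  · rintro (⟨n, hn, rfl⟩ | ⟨h, rfl⟩)
    · rcases (memp _ _ _ _ _ _ _).1 hn with ⟨rfl, h⟩ | ⟨rfl, h⟩ | ⟨rfl, h⟩ | ⟨rfl, h⟩ | ⟨rfl, h⟩ |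
        ⟨rfl, h⟩
      · exact ⟨_, (mem_mv6 ..).2 (Or.inl ⟨h, rfl⟩), u1 ..⟩
      · exact ⟨_, (mem_mv6 ..).2 (Or.inr (Or.inl ⟨h, rfl⟩)), u2 ..⟩
      · exact ⟨_, (mem_mv6 ..).2 (Or.inr (Or.inr (Or.inl ⟨h, rfl⟩))), u3 ..⟩
      · exact ⟨_, (mem_mv6 ..).2 (Or.inr (Or.inr (Or.inr (Or.inl ⟨h, rfl⟩)))), u4 ..⟩
      · exact ⟨_, (mem_mv6 ..).2 (Or.inr (Or.inr (Or.inr (Or.inr (Or.inl ⟨h, rfl⟩))))), u5 ..⟩
      · exact ⟨_, (mem_mv6 ..).2 (Or.inr (Or.inr (Or.inr (Or.inr (Or.inr (Or.inl ⟨h, rfl⟩)))))),
          u6 ..⟩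
    · exact ⟨_, (mem_mv6 ..).2 (Or.inr (Or.inr (Or.inr (Or.inr (Or.inr (Or.inr
        ⟨(nz ..).1 h, rfl⟩)))))), ua ..⟩
  · rintro ⟨y, hy, rfl⟩
    rcases (mem_mv6 ..).1 hy with ⟨h, rfl⟩ | ⟨h, rfl⟩ | ⟨h, rfl⟩ | ⟨h, rfl⟩ | ⟨h, rfl⟩ |
      ⟨h, rfl⟩ | ⟨h, rfl⟩
    · exact Or.inl ⟨1, (memp ..).2 (by omega), (u1 ..).symm⟩
    · exact Or.inl ⟨2, (memp ..).2 (by omega), (u2 ..).symm⟩
    · exact Or.inl ⟨3, (memp ..).2 (by omega), (u3 ..).symm⟩
    · exact Or.inl ⟨4, (memp ..).2 (by omega), (u4 ..).symm⟩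
    · exact Or.inl ⟨5, (memp ..).2 (by omega), (u5 ..).symm⟩
    · exact Or.inl ⟨6, (memp ..).2 (by omega), (u6 ..).symm⟩
    · exact Or.inr ⟨(nz ..).2 h, (ua ..).symm⟩

def ptbl : ℕ := 0x6600000651000570000641100631200621300611400601500056100048000064020055110046200064100054120063110044400054200046100062040053130062120045110042600052400044300036200054100046000052140061130044120036020053110040800050600042500034400052300044200062100054000060060051150060140043130034220052120044020061110040700032600050500042400052200044100036000062000050240042140034040060040051130032420042220060120052020043110030800040600050400042300034200060200052100044000003900032240050140042040050220042120034020060020031510041310051110030700040500032400050300042200060100052000003720005500032060050040031330041130004520032220050120042020020800030600022500040400006300050200042100034000060000003540003700031150032040002720030420022320040220050020041110010900020700004500030500040300032200050100042000003360003520005300002540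030240022140030320040120032020000a000108000027000206000304000223000402000061000500000031800033400051200035000023600211500025200302200221200400200213100009000107000205000043000303000401000320000031600033200051000021800005600120600006400023400202400211300122200041200008000106000025000204000302000221000400000031400033000002a00004600021600005400201400120400112300006200023200202200211100105000203000122000041000031200001a000028000044000214002004000133000052002012001202001121000060001040000230002020000310000018000026001103000042000212002002000131000050001030002010001200000016000024001012001101000040001020000210002000000014000022001002000030001010000012000020001000000010000000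

def dk (k : ℕ) : T := (k % 16, k / 16 % 16, k / 256 % 16, k / 4096 % 16, k / 65536 % 16,
  k / 1048576 % 16)

def pj (j : ℕ) : T := dk ((ptbl >>> (24 * j)) % 16777216)

theorem check : (List.range 248).all (fun j => (mv (pj j)).all (fun y =>
    (mv y).any (fun z => ((List.range j).map pj).contains z))) = true := by decide +kernel

theorem main (j : ℕ) : j < 248 → Wins false (posT (pj j)) := by
  induction j using Nat.strong_induction_on with
  | _ j ih =>
    intro hj
    refine Wins.wait _ (fun t ht => ?_)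
    obtain ⟨y, hy, rfl⟩ := (move_iff _ _).1 ht
    have h1 := List.all_eq_true.1 (List.all_eq_true.1 check j (List.mem_range.2 hj)) y hy
    obtain ⟨z, hz, h2⟩ := List.any_eq_true.1 h1
    obtain ⟨i, hi, rfl⟩ := List.mem_map.1 (List.contains_iff_mem.1 h2)
    have hi' := List.mem_range.1 hi
    exact Wins.move _ _ ((move_iff _ _).2 ⟨_, hz, rfl⟩) (ih i hi' (by omega))

theorem isP : Wins false {5, 5, 5, 5, 5, 5, 6, 6, 6, 6, 6, 6} := by
  have h := main 247 (by norm_num)
  have h2 : posT (pj 247) = {5, 5, 5, 5, 5, 5, 6, 6, 6, 6, 6, 6} := by decide +kernel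
  exact h2 ▸ h

/-- Six piles of size 5 and six piles of size 6 form a P-position with 6 odd piles, while
`6 ∉ S_12`; hence the conjectured classification fails. -/
theorem result :
    Wins false {5, 5, 5, 5, 5, 5, 6, 6, 6, 6, 6, 6} ∧
    ¬ Wins true {5, 5, 5, 5, 5, 5, 6, 6, 6, 6, 6, 6} ∧ ¬ InS 12 6 ∧
    ¬ ∀ k : ℕ, 3 ≤ k → ∀ s : Multiset ℕ, Multiset.card s = k → (∀ a ∈ s, (k + 2) / 3 < a) →
      (Wins false s ↔ InS k (Multiset.card (s.filter (fun a => a % 2 = 1)))) := by
  have hS : ¬ InS 12 6 := by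
    unfold InS
    omega
  refine ⟨isP, excl false _ isP, hS, fun h => hS ?_⟩
  have h1 := (h 12 (by norm_num) {5, 5, 5, 5, 5, 5, 6, 6, 6, 6, 6, 6} (by decide)
    (by decide)).1 isP
  have h2 : Multiset.card (({5, 5, 5, 5, 5, 5, 6, 6, 6, 6, 6, 6} : Multiset ℕ).filter
    (fun a => a % 2 = 1)) = 6 := by decide
  exact h2 ▸ h1

end Pool.Agent.Results.MP_b8aaf5_co.Neg
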